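import Pool.Agent.H185.TC.Const
import Pool.Agent.H719R2.PIR.Fin

/-!
# The conic leaf gives a rational structure; affine normal form
-/

open Set Topology Complex Filter Polynomial

namespace Pool.Agent.H185.TC

section
variable (a b c d e f : ℝ)

/-- `p² q(p)` on the circle -/
noncomputable def Dp : ℂ[X] :=
  C (a : ℂ) * (X ^ 2 + 1) ^ 2 * C (1 / 4) + C (b : ℂ) * (X ^ 4 - 1) * C (-I / 4)
    - C (c : ℂ) * (X ^ 2 - 1) ^ 2 * C (1 / 4) + C (d : ℂ) * (X ^ 3 + X) * C (1 / 2)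
    + C (e : ℂ) * (X ^ 3 - X) * C (-I / 2) + C (f : ℂ) * X ^ 2

/-- `-p² dq(p)(ip)` on the circle -/
noncomputable def Np : ℂ[X] :=
  -(C ((c - a : ℝ) : ℂ) * (X ^ 4 - 1) * C (-I / 2)
    + C (b : ℂ) * ((X ^ 2 + 1) ^ 2 + (X ^ 2 - 1) ^ 2) * C (1 / 4)
    + C (d : ℂ) * (X ^ 3 - X) * C (I / 2) + C (e : ℂ) * (X ^ 3 + X) * C (1 / 2))

lemma re_im_circle {p : ℂ} (hp : ‖p‖ = 1) :
    (p.re : ℂ) * p = (p ^ 2 + 1) / 2 ∧ (p.im : ℂ) * p = -I * (p ^ 2 - 1) / 2 := by
  have h1 : p * (starRingEnd ℂ) p = 1 := by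
    rw [mul_conj, normSq_eq_norm_sq, hp]
    simp
  have h2 : (p.re : ℂ) = (p + (starRingEnd ℂ) p) / 2 := by
    rw [Complex.re_eq_add_conj]
  have h3 : (p.im : ℂ) = -I * (p - (starRingEnd ℂ) p) / 2 := by
    rw [Complex.im_eq_sub_conj]
    field_simp
    rw [I_sq]
    ring
  constructor
  · rw [h2]
    linear_combination h1 / 2
  · rw [h3]
    linear_combination I * h1 / 2

lemma Dp_eval {p : ℂ} (hp : ‖p‖ = 1) :
    (Dp a b c d e f).eval p = p ^ 2 * (quad a b c d e f p : ℂ) := by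
  obtain ⟨h1, h2⟩ := re_im_circle hp
  have e1 : p ^ 2 * (quad a b c d e f p : ℂ) = a * ((p.re : ℂ) * p) ^ 2
      + b * ((p.re : ℂ) * p) * ((p.im : ℂ) * p) + c * ((p.im : ℂ) * p) ^ 2
      + d * ((p.re : ℂ) * p) * p + e * ((p.im : ℂ) * p) * p + f * p ^ 2 := by
    simp only [quad]
    push_cast
    ring
  rw [e1, h1, h2]
  simp only [Dp, eval_add, eval_sub, eval_mul, eval_C, eval_pow, eval_X, eval_one]
  linear_combination (-(c : ℂ) * (p ^ 2 - 1) ^ 2 / 4) * I_sq

lemma Np_eval {p : ℂ} (hp : ‖p‖ = 1) :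
    (Np a b c d e).eval p = - (p ^ 2 * (dq a b c d e p (I * p) : ℂ)) := by
  obtain ⟨h1, h2⟩ := re_im_circle hp
  have e1 : p ^ 2 * (dq a b c d e p (I * p) : ℂ) =
      2 * ((c - a : ℝ) : ℂ) * ((p.re : ℂ) * p) * ((p.im : ℂ) * p)
      + b * (((p.re : ℂ) * p) ^ 2 - ((p.im : ℂ) * p) ^ 2)
      - d * ((p.im : ℂ) * p) * p + e * ((p.re : ℂ) * p) * p := by
    simp only [dq, mul_re, mul_im, I_re, I_im]
    push_cast
    ring
  rw [e1, h1, h2]
  simp only [Np, eval_add, eval_sub, eval_mul, eval_C, eval_pow, eval_X, eval_one, eval_neg]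
  linear_combination (-(b : ℂ) * (p ^ 2 - 1) ^ 2 / 4) * I_sq

end

/-- A conic leaf gives a rational structure on the unit circle. -/
lemma rational {Y' : ℂ → ℝ} {a b c d e f : ℝ}
    (hneg : ∀ p : ℂ, ‖p‖ = 1 → quad a b c d e f p < 0)
    (hκ : ∀ p : ℂ, ‖p‖ = 1 → ∃ κ : ℝ, dq a b c d e p (I * p) = - κ * quad a b c d e f p ∧
      ∀ s t : ℝ, s < 0 → 0 < t → Y' (p + t • (I * p)) ≤ 1 →
        Y' (p + s • (I * p)) = Y' (p + t • (I * p)) → s⁻¹ + t⁻¹ = κ) :
    Pool.Agent.H719R2.PIB.RationalInvolutions Y' := by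
  refine ⟨Np a b c d e, Dp a b c d e f, fun p hp => ?_⟩
  have hp0 : p ≠ 0 := by
    intro h
    rw [h, norm_zero] at hp
    exact zero_ne_one hp
  have hq := (hneg p hp).ne
  have hD : (Dp a b c d e f).eval p ≠ 0 := by
    rw [Dp_eval a b c d e f hp]
    exact mul_ne_zero (pow_ne_zero 2 hp0) (by exact_mod_cast hq)
  refine ⟨hD, fun s t hs ht h1 h2 => ?_⟩
  obtain ⟨κ, h3, h4⟩ := hκ p hp
  rw [h4 s t hs ht h1 h2, eq_div_iff hD, Dp_eval a b c d e f hp, Np_eval a b c d e hp, h3]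
  push_cast
  ring

/-- Affine normal form of an ellipse. -/
lemma normal {a b c d e f : ℝ} (ha : 0 < a) (hb : b ^ 2 < 4 * a * c)
    (hneg : ∃ z, quad a b c d e f z < 0) : ∃ (L : ℂ ≃L[ℝ] ℂ) (m : ℂ) (ρ : ℝ), 0 < ρ ∧
      ∀ w, quad a b c d e f (m + L w) = ρ * (normSq w - 1) := by
  obtain ⟨Δ, hΔe⟩ : ∃ Δ : ℝ, Δ = 4 * a * c - b ^ 2 := ⟨_, rfl⟩
  have hΔ : 0 < Δ := by linarith
  set m : ℂ := ⟨(b * e - 2 * c * d) / Δ, (b * d - 2 * a * e) / Δ⟩ with hm
  have hm1 : m.re * Δ = b * e - 2 * c * d := div_mul_cancel₀ _ hΔ.ne'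
  have hm2 : m.im * Δ = b * d - 2 * a * e := div_mul_cancel₀ _ hΔ.ne'
  have hdq : ∀ u, dq a b c d e m u = 0 := by
    intro u
    have h1 : dq a b c d e m u * Δ = 0 := by
      simp only [dq]
      linear_combination (2 * a * u.re + b * u.im) * hm1 + (b * u.re + 2 * c * u.im) * hm2
        + (d * u.re + e * u.im) * hΔe
    rcases mul_eq_zero.1 h1 with h | h
    · exact h
    · exact absurd h hΔ.ne'
  have hline : ∀ u, quad a b c d e f (m + u) = fm a b c u + quad a b c d e f m := by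
    intro u
    have := quad_line a b c d e f m u 1
    rw [one_smul, hdq] at this
    rw [this]
    ring
  have hfm : ∀ u, fm a b c u = a * (u.re + b / (2 * a) * u.im) ^ 2 +
      Δ / (4 * a) * u.im ^ 2 := by
    intro u
    simp only [fm, hΔe]
    field_simp
    ring
  set ρ := - quad a b c d e f m with hρ
  have hρ0 : 0 < ρ := by
    obtain ⟨z, hz⟩ := hneg
    have h1 := hline (z - m)
    rw [add_sub_cancel] at h1
    have h2 : 0 ≤ fm a b c (z - m) := by
      rw [hfm]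
      positivity
    linarith
  set α := √(ρ / a) with hα
  set δ := √(4 * a * ρ / Δ) with hδ
  have hα0 : 0 < α := Real.sqrt_pos.2 (by positivity)
  have hδ0 : 0 < δ := Real.sqrt_pos.2 (by positivity)
  have hα2 : α ^ 2 = ρ / a := Real.sq_sqrt (by positivity)
  have hδ2 : δ ^ 2 = 4 * a * ρ / Δ := Real.sq_sqrt (by positivity)
  set β := -b * δ / (2 * a) with hβ
  let L' : ℂ ≃ₗ[ℝ] ℂ :=
    { toFun := fun w => ⟨α * w.re + β * w.im, δ * w.im⟩
      map_add' := by
        intro x y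
        apply Complex.ext
        · simp only [add_re, add_im]; ring
        · simp only [add_im]; ring
      map_smul' := by
        intro r x
        apply Complex.ext
        · simp only [real_smul, mul_re, mul_im, ofReal_re, ofReal_im, RingHom.id_apply]; ring
        · simp only [real_smul, mul_re, mul_im, ofReal_re, ofReal_im, RingHom.id_apply]; ring
      invFun := fun z => ⟨(z.re - β * (z.im / δ)) / α, z.im / δ⟩
      left_inv := by
        intro x
        apply Complex.ext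
        · show (α * x.re + β * x.im - β * (δ * x.im / δ)) / α = x.re
          field_simp
          ring
        · show δ * x.im / δ = x.im
          field_simp
      right_inv := by
        intro x
        apply Complex.ext
        · show α * ((x.re - β * (x.im / δ)) / α) + β * (x.im / δ) = x.re
          field_simp
          ring
        · show δ * (x.im / δ) = x.im
          field_simp }
  refine ⟨L'.toContinuousLinearEquiv, m, ρ, hρ0, fun w => ?_⟩
  rw [hline, hfm]
  have h1 : (L'.toContinuousLinearEquiv w).re = α * w.re + β * w.im := rfl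
  have h2 : (L'.toContinuousLinearEquiv w).im = δ * w.im := rfl
  rw [h1, h2]
  have h3 : α * w.re + β * w.im + b / (2 * a) * (δ * w.im) = α * w.re := by
    rw [hβ]
    field_simp
    ring
  rw [h3, mul_pow, mul_pow, hα2, hδ2, normSq_apply]
  field_simp
  rw [hρ]
  ring

end Pool.Agent.H185.TC
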