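import Pool.Agent.H185.TC.Ell

/-!
# Collars of convex curves, structure constants, two conic leaves
-/

open Set Topology Complex Filter Asymptotics

namespace Pool.Agent.H185.TC

/-- The closed exterior collar `{0 ≤ Y ≤ 1}` of the closed convex curve `γ = {Y = 0}`, the boundary
of the convex body `{Y ≤ 0}`, is foliated by the closed convex curves `{Y = c}`, `0 ≤ c ≤ 1`: `Y` is
continuously differentiable with nonzero differential on (a neighbourhood of) the collar and the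
sets `{Y ≤ c}` are compact and convex. -/
structure IsCollar (Y : ℂ → ℝ) : Prop where
  smooth : ∃ U : Set ℂ, IsOpen U ∧ {z | 0 ≤ Y z ∧ Y z ≤ 1} ⊆ U ∧ ContDiffOn ℝ 1 Y U
  regular : ∀ z, 0 ≤ Y z → Y z ≤ 1 → fderiv ℝ Y z ≠ 0
  compact : ∀ c, 0 ≤ c → c ≤ 1 → IsCompact {z | Y z ≤ c}
  convex : ∀ c, 0 ≤ c → c ≤ 1 → Convex ℝ {z | Y z ≤ c}
  nonempty : (interior {z | Y z ≤ 0}).Nonempty
  leaf_zero : ∀ z, Y z = 0 ↔ z ∈ frontier {z | Y z ≤ 0}

/-- On the line `t ↦ p + t v` the involution exchanging, for every leaf of the collar, a point of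
the leaf with `t < 0` and one with `t > 0`, is the restriction of a projective transformation
`t ↦ a t / (c t + d)` fixing `p`. -/
def Projective (Y : ℂ → ℝ) (p v : ℂ) : Prop :=
  ∃ a c d : ℝ, a * d ≠ 0 ∧ ∀ s t : ℝ, s < 0 → 0 < t →
    Y (p + t • v) ≤ 1 → Y (p + s • v) = Y (p + t • v) →
      c * s + d ≠ 0 ∧ a * s / (c * s + d) = t ∧ c * t + d ≠ 0 ∧ a * t / (c * t + d) = s

lemma Projective.const {Y : ℂ → ℝ} {p v : ℂ} (h : Projective Y p v) :
    ∃ κ : ℝ, ∀ s t : ℝ, s < 0 → 0 < t → Y (p + t • v) ≤ 1 → Y (p + s • v) = Y (p + t • v) →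
      s⁻¹ + t⁻¹ = κ := by
  obtain ⟨a, c, d, had, h⟩ := h
  have ha : a ≠ 0 := left_ne_zero_of_mul had
  have hd : d ≠ 0 := right_ne_zero_of_mul had
  refine ⟨-c / d, fun s t hs ht h1 h2 => ?_⟩
  obtain ⟨h3, h4, h5, h6⟩ := h s t hs ht h1 h2
  rw [div_eq_iff h3] at h4
  rw [div_eq_iff h5] at h6
  have h7 : (a + d) * (s - t) = 0 := by linear_combination h4 - h6
  have h8 : a = -d := by
    rcases mul_eq_zero.1 h7 with h | h
    · linarith
    · linarith
  have hs' := hs.ne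
  have ht' := ht.ne'
  rw [h8] at h4
  field_simp
  linear_combination -h4

variable {Y : ℂ → ℝ}

lemma IsCollar.diffAt (h : IsCollar Y) {z : ℂ} (h0 : 0 ≤ Y z) (h1 : Y z ≤ 1) :
    HasFDerivAt Y (fderiv ℝ Y z) z := by
  obtain ⟨U, hU, hsub, hd⟩ := h.smooth
  have : ContDiffAt ℝ 1 Y z := hd.contDiffAt (hU.mem_nhds (hsub ⟨h0, h1⟩))
  exact (this.differentiableAt (by norm_num)).hasFDerivAt

lemma IsCollar.mem_int (h : IsCollar Y) {c : ℝ} (hc : c ≤ 1) {z : ℂ} (h0 : 0 ≤ Y z)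
    (h1 : Y z < c) : z ∈ interior {z | Y z ≤ c} := by
  have h2 := (h.diffAt h0 (h1.le.trans hc)).continuousAt
  rw [mem_interior_iff_mem_nhds]
  filter_upwards [h2.eventually_lt_const h1] with w hw
  exact hw.le

lemma IsCollar.sub_int (h : IsCollar Y) {c : ℝ} (hc0 : 0 < c) (hc : c ≤ 1) {z : ℂ}
    (hz : Y z ≤ 0) : z ∈ interior {z | Y z ≤ c} := by
  rcases eq_or_lt_of_le hz with h0 | h0
  · exact h.mem_int hc h0.ge (by rw [h0]; exact hc0)
  · have h1 : z ∈ interior {z | Y z ≤ 0} := by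
      by_contra h2
      have h3 : z ∈ frontier {z | Y z ≤ 0} := by
        rw [(h.compact 0 le_rfl zero_le_one).isClosed.frontier_eq]
        exact ⟨hz, h2⟩
      rw [← h.leaf_zero] at h3
      linarith
    exact interior_mono (fun w hw => le_trans (show Y w ≤ 0 from hw) hc0.le) h1

lemma IsCollar.leaf_eq (h : IsCollar Y) {c : ℝ} (hc0 : 0 ≤ c) (hc : c ≤ 1) :
    {z | Y z = c} = frontier {z | Y z ≤ c} := by
  rcases eq_or_lt_of_le hc0 with h0 | h0
  · ext z
    rw [← h0]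
    exact h.leaf_zero z
  have hcl := (h.compact c hc0 hc).isClosed
  rw [hcl.frontier_eq]
  ext z
  constructor
  · intro hz
    have hz' : Y z = c := hz
    refine ⟨hz'.le, fun h1 => ?_⟩
    have h2 : IsLocalMax Y z := by
      rw [mem_interior_iff_mem_nhds] at h1
      filter_upwards [h1] with w hw
      rw [hz']
      exact hw
    exact h.regular z (by rw [hz']; exact hc0) (by rw [hz']; exact hc) h2.fderiv_eq_zero
  · rintro ⟨h1, h2⟩
    have h1' : Y z ≤ c := h1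
    rcases eq_or_lt_of_le h1' with h3 | h3
    · exact h3
    · exfalso
      apply h2
      rcases le_or_gt 0 (Y z) with h4 | h4
      · exact h.mem_int hc h4 h3
      · exact h.sub_int h0 hc h4.le

lemma IsCollar.int_nonempty (h : IsCollar Y) {c : ℝ} (hc0 : 0 ≤ c) (hc : c ≤ 1) :
    (interior {z | Y z ≤ c}).Nonempty := by
  rcases eq_or_lt_of_le hc0 with h0 | h0
  · rw [← h0]
    exact h.nonempty
  · obtain ⟨z, hz⟩ := h.nonempty
    have h1 : z ∈ {z | Y z ≤ 0} := interior_subset hz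
    exact ⟨z, h.sub_int h0 hc h1⟩

/-- A leaf contained in a conic. -/
lemma IsCollar.conic_leaf (h : IsCollar Y) {r : ℝ} (hr0 : 0 ≤ r) (hr : r ≤ 1)
    (hC : InConic {z | Y z = r}) : ∃ a b c d e f : ℝ, 0 < a ∧ b ^ 2 < 4 * a * c ∧
      {z | Y z ≤ r} = {z | quad a b c d e f z ≤ 0} ∧
      interior {z | Y z ≤ r} = {z | quad a b c d e f z < 0} ∧
      {z | Y z = r} = {z | quad a b c d e f z = 0} := by
  obtain ⟨q, hq, hne, h0⟩ := hC
  obtain ⟨a, b, c, d, e, f, ε, h1, h2, h3, h4, h5, h6, h7⟩ :=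
    ell (h.compact r hr0 hr) (h.convex r hr0 hr) (h.int_nonempty hr0 hr) hq hne
      (fun z hz => h0 z (by rw [h.leaf_eq hr0 hr]; exact hz))
  refine ⟨a, b, c, d, e, f, h1, h2, h5, h6, ?_⟩
  rw [h.leaf_eq hr0 hr, h7]

/-- A conic leaf determines the structure constant. -/
lemma IsCollar.conic_rel (h : IsCollar Y) {r : ℝ} (hr0 : 0 < r) (hr : r ≤ 1)
    {a b c d e f : ℝ} (hq : {z | Y z = r} = {z | quad a b c d e f z = 0})
    {p v : ℂ} (hp : Y p ≤ 0) (hv : v ≠ 0) {κ : ℝ}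
    (hκ : ∀ s t : ℝ, s < 0 → 0 < t → Y (p + t • v) ≤ 1 → Y (p + s • v) = Y (p + t • v) →
      s⁻¹ + t⁻¹ = κ) :
    dq a b c d e p v = - κ * quad a b c d e f p := by
  have hpi := h.sub_int hr0 hr hp
  obtain ⟨t, ht, h1, -⟩ := exit_point (h.compact r hr0.le hr) (h.convex r hr0.le hr) hpi hv
  obtain ⟨s, hs, h2, -⟩ := exit_point (h.compact r hr0.le hr) (h.convex r hr0.le hr) hpi
    (neg_ne_zero.2 hv)
  rw [← h.leaf_eq hr0.le hr] at h1 h2
  have e0 : p + s • -v = p + (-s) • v := by simp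
  rw [e0] at h2
  have h1' : Y (p + t • v) = r := h1
  have h2' : Y (p + (-s) • v) = r := h2
  have h3 := hκ (-s) t (by linarith) ht (by rw [h1']; exact hr) (by rw [h1', h2'])
  rw [hq] at h1 h2
  have e1 : quad a b c d e f (p + t • v) = 0 := h1
  have e2 : quad a b c d e f (p + (-s) • v) = 0 := h2
  rw [quad_line] at e1 e2
  have e3 : dq a b c d e p v = fm a b c v * (s - t) := by
    have : (s + t) * (dq a b c d e p v - fm a b c v * (s - t)) = 0 := by
      linear_combination e1 - e2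
    rcases mul_eq_zero.1 this with h | h
    · linarith
    · linarith
  have e4 : quad a b c d e f p = - fm a b c v * s * t := by
    rw [e3] at e1
    linear_combination e1
  rw [← h3, e3, e4]
  field_simp
  ring

lemma quad_hasFDerivAt (a b c d e f : ℝ) (p : ℂ) : ∃ L : ℂ →L[ℝ] ℝ,
    HasFDerivAt (quad a b c d e f) L p ∧ ∀ v, L v = dq a b c d e p v := by
  have hr : HasFDerivAt (fun z : ℂ => z.re) reCLM p := reCLM.hasFDerivAt
  have hi : HasFDerivAt (fun z : ℂ => z.im) imCLM p := imCLM.hasFDerivAt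
  refine ⟨_, ((((((hr.pow 2).const_mul a).add ((hr.const_mul b).mul hi)).add
    ((hi.pow 2).const_mul c)).add (hr.const_mul d)).add (hi.const_mul e)).add_const f, ?_⟩
  intro v
  simp only [dq, ContinuousLinearMap.add_apply, ContinuousLinearMap.smul_apply, reCLM_apply,
    imCLM_apply, smul_eq_mul]
  simp
  ring

/-- The radial parametrisation of the boundary of a convex body is locally Lipschitz. -/
lemma radial {K : Set ℂ} (hc : IsCompact K) (hv : Convex ℝ K) {o : ℂ} (ho : o ∈ interior K) :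
    ∃ φ : ℝ → ℂ, (∀ θ, φ θ ∈ frontier K) ∧ (∀ z ∈ frontier K, ∃ θ, φ θ = z) ∧
      ∀ θ, (fun θ' => φ θ' - φ θ) =O[𝓝 θ] (fun θ' => θ' - θ) := by
  set K' : Set ℂ := (fun z => o + z) ⁻¹' K with hK'
  have hv' : Convex ℝ K' := hv.translate_preimage_right o
  have hfr : frontier K' = (fun z => o + z) ⁻¹' frontier K :=
    ((Homeomorph.addLeft o).preimage_frontier K).symm
  have h0 : K' ∈ 𝓝 (0 : ℂ) := by
    have : K ∈ 𝓝 (o + 0) := by rw [add_zero]; exact mem_interior_iff_mem_nhds.1 ho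
    exact (continuous_const.add continuous_id).continuousAt.preimage_mem_nhds this
  have hcomp : IsCompact K' := (Homeomorph.addLeft o).isCompact_preimage.2 hc
  obtain ⟨C, hC⟩ := hv'.lipschitz_gauge h0
  have hpos : ∀ x : ℂ, x ≠ 0 → 0 < gauge K' x := fun x hx =>
    (gauge_pos (absorbent_nhds_zero h0) ((NormedSpace.isVonNBounded_iff ℝ).2 hcomp.isBounded)).2 hx
  let E : ℝ → ℂ := fun θ => exp (θ * I)
  have hE0 : ∀ θ, E θ ≠ 0 := fun θ => exp_ne_zero _
  have hEd : ∀ θ, HasDerivAt E (E θ * I) θ := by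
    intro θ
    have h1 : HasDerivAt (fun θ : ℝ => ((θ : ℂ) * I)) (1 * I) θ :=
      (HasDerivAt.ofReal_comp (hasDerivAt_id θ)).mul_const I
    have := h1.cexp
    simpa using this
  set r : ℝ → ℝ := fun θ => gauge K' (E θ) with hr
  have hrpos : ∀ θ, 0 < r θ := fun θ => hpos _ (hE0 θ)
  have hrc : Continuous r := hC.continuous.comp (continuous_iff_continuousAt.2
    fun θ => (hEd θ).continuousAt)
  refine ⟨fun θ => o + (r θ)⁻¹ • E θ, fun θ => ?_, fun z hz => ?_, fun θ => ?_⟩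
  · have h1 : (r θ)⁻¹ • E θ ∈ frontier K' := by
      rw [← gauge_eq_one_iff_mem_frontier hv' h0, gauge_smul_of_nonneg (by
        have := hrpos θ
        positivity)]
      simp only [smul_eq_mul]
      exact inv_mul_cancel₀ (hrpos θ).ne'
    rw [hfr] at h1
    exact h1
  · have h1 : z - o ∈ frontier K' := by
      rw [hfr]
      simpa using hz
    rw [← gauge_eq_one_iff_mem_frontier hv' h0] at h1
    have h2 : z - o ≠ 0 := by
      intro h
      rw [h, gauge_zero] at h1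
      exact zero_ne_one h1
    refine ⟨arg (z - o), ?_⟩
    have h3 : ‖z - o‖ • E (arg (z - o)) = z - o := by
      simp only [E, real_smul]
      exact norm_mul_exp_arg_mul_I (z - o)
    have h4 : r (arg (z - o)) = ‖z - o‖⁻¹ := by
      have h5 : gauge K' (‖z - o‖ • E (arg (z - o))) = ‖z - o‖ • gauge K' (E (arg (z - o))) :=
        gauge_smul_of_nonneg (norm_nonneg _) _
      rw [h3, h1, smul_eq_mul] at h5
      rw [hr]
      exact eq_inv_of_mul_eq_one_right h5.symm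
    show o + (r (arg (z - o)))⁻¹ • E (arg (z - o)) = z
    rw [h4, inv_inv, h3]
    ring
  · have hE1 : (fun θ' => E θ' - E θ) =O[𝓝 θ] (fun θ' => θ' - θ) := (hEd θ).isBigO_sub
    have hr1 : (fun θ' => r θ' - r θ) =O[𝓝 θ] (fun θ' => θ' - θ) := by
      refine IsBigO.trans (IsBigO.of_bound (C : ℝ) (Eventually.of_forall fun θ' => ?_)) hE1
      have := hC.dist_le_mul (E θ') (E θ)
      rw [dist_eq_norm, dist_eq_norm] at this
      exact this
    have hinv : (fun θ' => (r θ')⁻¹) =O[𝓝 θ] (fun _ => (1 : ℝ)) :=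
      ((hrc.continuousAt (x := θ)).inv₀ (hrpos θ).ne').isBigO_one ℝ
    have hE2 : (fun θ' => (r θ')⁻¹ - (r θ)⁻¹) =O[𝓝 θ] (fun θ' => θ' - θ) := by
      have h1 : (fun θ' => (r θ' - r θ) * (r θ')⁻¹) =O[𝓝 θ] (fun θ' => (θ' - θ) * 1) :=
        hr1.mul hinv
      have h2 := h1.const_mul_left (-(r θ)⁻¹)
      refine IsBigO.congr h2 (fun θ' => ?_) (fun θ' => by ring)
      have h3 := (hrpos θ).ne'
      have h4 := (hrpos θ').ne'
      field_simp
      ring
    have h5 : (fun θ' => (r θ')⁻¹ • (E θ' - E θ)) =O[𝓝 θ] (fun θ' => (1 : ℝ) • (θ' - θ)) :=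
      hinv.smul hE1
    have h6 : (fun θ' => ((r θ')⁻¹ - (r θ)⁻¹) • E θ) =O[𝓝 θ] (fun θ' => (θ' - θ) • (1 : ℝ)) :=
      hE2.smul (isBigO_const_const _ one_ne_zero _)
    have h7 : (fun θ' => (1 : ℝ) • (θ' - θ)) = fun θ' => θ' - θ := by
      ext; simp
    have h8 : (fun θ' => (θ' - θ) • (1 : ℝ)) = fun θ' => θ' - θ := by
      ext; simp
    rw [h7] at h5
    rw [h8] at h6
    refine (h5.add h6).congr (fun θ' => ?_) (fun _ => rfl)
    simp only [smul_sub, sub_smul]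
    abel

/-- Two functions with proportional differentials along the curve `{Y = 0}` are proportional on
it. -/
lemma IsCollar.ratio (h : IsCollar Y) {P₁ P₂ : ℂ → ℝ}
    (hP : ∀ p, Y p = 0 → P₂ p ≠ 0 ∧ ∃ L₁ L₂ : ℂ →L[ℝ] ℝ, HasFDerivAt P₁ L₁ p ∧
      HasFDerivAt P₂ L₂ p ∧ ∀ v, v ≠ 0 → fderiv ℝ Y p v = 0 → L₁ v * P₂ p = L₂ v * P₁ p) :
    ∃ κ : ℝ, ∀ p, Y p = 0 → P₁ p = κ * P₂ p := by
  obtain ⟨o, ho⟩ := h.nonempty
  obtain ⟨φ, h1, h2, h3⟩ := radial (h.compact 0 le_rfl zero_le_one)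
    (h.convex 0 le_rfl zero_le_one) ho
  have hY0 : ∀ θ, Y (φ θ) = 0 := fun θ => (h.leaf_zero _).2 (h1 θ)
  have hder : ∀ θ, HasDerivAt (fun θ => P₁ (φ θ) / P₂ (φ θ)) 0 θ := by
    intro θ
    obtain ⟨hne, L₁, L₂, hL1, hL2, hrel⟩ := hP (φ θ) (hY0 θ)
    have hdY := h.diffAt (hY0 θ).ge (by rw [hY0 θ]; exact zero_le_one)
    have hreg := h.regular (φ θ) (hY0 θ).ge (by rw [hY0 θ]; exact zero_le_one)
    obtain ⟨w, hw⟩ : ∃ w, fderiv ℝ Y (φ θ) w ≠ 0 := by
      by_contra hcon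
      push Not at hcon
      exact hreg (ContinuousLinearMap.ext hcon)
    set M := (P₂ (φ θ) ^ 2)⁻¹ • (P₂ (φ θ) • L₁ - P₁ (φ θ) • L₂) with hM
    have hinv : HasFDerivAt (fun x => (P₂ x)⁻¹) (-(P₂ (φ θ) ^ 2)⁻¹ • L₂) (φ θ) :=
      (hasDerivAt_inv hne).comp_hasFDerivAt (φ θ) hL2
    have hg : HasFDerivAt (fun x => P₁ x / P₂ x) M (φ θ) := by
      have h5 := hL1.mul hinv
      have h6 : (fun x => P₁ x / P₂ x) = fun x => P₁ x * (P₂ x)⁻¹ := by
        ext x
        rw [div_eq_mul_inv]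
      rw [h6]
      refine h5.congr_fderiv ?_
      ext v
      simp only [hM, ContinuousLinearMap.smul_apply, ContinuousLinearMap.sub_apply,
        ContinuousLinearMap.add_apply, smul_eq_mul]
      field_simp
      ring
    set lam := M w / fderiv ℝ Y (φ θ) w with hlam
    have hMk : ∀ v, fderiv ℝ Y (φ θ) v = 0 → M v = 0 := by
      intro v hv
      by_cases hv0 : v = 0
      · rw [hv0, map_zero]
      · have := hrel v hv0 hv
        simp only [hM, ContinuousLinearMap.smul_apply, ContinuousLinearMap.sub_apply,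
          smul_eq_mul]
        have h5 : P₂ (φ θ) * L₁ v - P₁ (φ θ) * L₂ v = 0 := by linarith
        rw [h5, mul_zero]
    have hMl : M - lam • fderiv ℝ Y (φ θ) = 0 := by
      ext x
      have h5 : fderiv ℝ Y (φ θ) (x - (fderiv ℝ Y (φ θ) x / fderiv ℝ Y (φ θ) w) • w) = 0 := by
        rw [map_sub, map_smul, smul_eq_mul, div_mul_cancel₀ _ hw, sub_self]
      have h6 := hMk _ h5
      rw [map_sub, map_smul, smul_eq_mul] at h6
      simp only [ContinuousLinearMap.sub_apply, ContinuousLinearMap.smul_apply, smul_eq_mul,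
        ContinuousLinearMap.zero_apply, hlam]
      have h7 : M x = fderiv ℝ Y (φ θ) x / fderiv ℝ Y (φ θ) w * M w := by linarith
      rw [h7]
      field_simp
      ring
    have hG : HasFDerivAt (fun x => P₁ x / P₂ x - lam * Y x) (0 : ℂ →L[ℝ] ℝ) (φ θ) := by
      have := hg.sub (hdY.const_mul lam)
      rw [hMl] at this
      exact this
    have hcont : Tendsto φ (𝓝 θ) (𝓝 (φ θ)) := by
      have h5 := (h3 θ).trans_tendsto (by
        have : Tendsto (fun θ' : ℝ => θ' - θ) (𝓝 θ) (𝓝 (θ - θ)) :=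
          (continuous_id.sub continuous_const).tendsto θ
        rwa [sub_self] at this)
      have := h5.add_const (φ θ)
      simpa using this
    have h5 := (hG.isLittleO.comp_tendsto hcont).trans_isBigO (h3 θ)
    rw [hasDerivAt_iff_isLittleO]
    refine h5.congr (fun θ' => ?_) (fun _ => rfl)
    simp [hY0]
  have hconst : ∀ θ θ', P₁ (φ θ) / P₂ (φ θ) = P₁ (φ θ') / P₂ (φ θ') := by
    intro θ θ'
    exact is_const_of_deriv_eq_zero (f := fun θ => P₁ (φ θ) / P₂ (φ θ))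
      (fun θ => (hder θ).differentiableAt) (fun θ => (hder θ).deriv) θ θ'
  refine ⟨P₁ (φ 0) / P₂ (φ 0), fun p hp => ?_⟩
  obtain ⟨θ, rfl⟩ := h2 p ((h.leaf_zero p).1 hp)
  rw [← hconst θ 0]
  rw [div_mul_cancel₀ _ (hP _ hp).1]

/-- Two conic leaves force the curve to be a conic. -/
theorem IsCollar.gamma_conic (h : IsCollar Y)
    (hp : ∀ p v, Y p = 0 → v ≠ 0 → fderiv ℝ Y p v = 0 → Projective Y p v)
    {r₁ r₂ : ℝ} (h0 : 0 ≤ r₁) (h12 : r₁ < r₂) (h2 : r₂ ≤ 1)
    (hC1 : InConic {z | Y z = r₁}) (hC2 : InConic {z | Y z = r₂}) :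
    InConic {z | Y z = 0} := by
  rcases eq_or_lt_of_le h0 with h00 | h00
  · rw [← h00] at hC1
    exact hC1
  obtain ⟨a, b, c, d, e, f, ha, hb, hK, hI, hF⟩ := h.conic_leaf h0 (h12.le.trans h2) hC1
  obtain ⟨a', b', c', d', e', f', ha', hb', hK', hI', hF'⟩ :=
    h.conic_leaf (h0.trans h12.le) h2 hC2
  have hneg' : ∀ p, Y p ≤ 0 → quad a' b' c' d' e' f' p < 0 := by
    intro p hp0
    have := h.sub_int (h00.trans h12) h2 hp0
    rw [hI'] at this
    exact this
  obtain ⟨κ, hκ⟩ := h.ratio (P₁ := quad a b c d e f) (P₂ := quad a' b' c' d' e' f') (by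
    intro p hp0
    refine ⟨(hneg' p hp0.le).ne, ?_⟩
    obtain ⟨L₁, hL1, hv1⟩ := quad_hasFDerivAt a b c d e f p
    obtain ⟨L₂, hL2, hv2⟩ := quad_hasFDerivAt a' b' c' d' e' f' p
    refine ⟨L₁, L₂, hL1, hL2, fun v hv0 hv => ?_⟩
    obtain ⟨κ, hκ⟩ := (hp p v hp0 hv0 hv).const
    rw [hv1, hv2, h.conic_rel h00 (h12.le.trans h2) hF hp0.le hv0 hκ,
      h.conic_rel (h00.trans h12) h2 hF' hp0.le hv0 hκ]
    ring)
  refine ⟨fun z => quad a b c d e f z - κ * quad a' b' c' d' e' f' z,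
    IsQuad.sub ⟨a, b, c, d, e, f, fun _ => rfl⟩ ⟨a', b', c', d', e', f', fun _ => rfl⟩ κ, ?_,
    fun z hz => ?_⟩
  · by_contra hcon
    push Not at hcon
    -- a point of the leaf `r₂`
    obtain ⟨o, ho⟩ := h.int_nonempty (h0.trans h12.le) h2
    obtain ⟨t, ht, h5, -⟩ := exit_point (h.compact r₂ (h0.trans h12.le) h2)
      (h.convex r₂ (h0.trans h12.le) h2) ho one_ne_zero
    rw [← h.leaf_eq (h0.trans h12.le) h2] at h5
    have h6 : Y (o + t • 1) = r₂ := h5
    have h7 : quad a' b' c' d' e' f' (o + t • 1) = 0 := by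
      rw [hF'] at h5
      exact h5
    have h8 := hcon (o + t • 1)
    rw [h7, mul_zero, sub_zero] at h8
    have h9 : o + t • 1 ∈ {z | Y z = r₁} := by
      rw [hF]
      exact h8
    have h10 : Y (o + t • 1) = r₁ := h9
    linarith
  · have := hκ z hz
    show quad a b c d e f z - κ * quad a' b' c' d' e' f' z = 0
    linarith

end Pool.Agent.H185.TC
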