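import Mathlib

/-!
# Convex bodies whose boundary lies on a conic
-/

open Set Topology Complex

namespace Pool.Agent.H185.TC

/-- The real polynomial of degree at most two with the given coefficients in `z.re`, `z.im`. -/
def quad (a b c d e f : ℝ) (z : ℂ) : ℝ :=
  a * z.re ^ 2 + b * z.re * z.im + c * z.im ^ 2 + d * z.re + e * z.im + f

/-- `q` is a real polynomial of degree at most two in `z.re` and `z.im`. -/
def IsQuad (q : ℂ → ℝ) : Prop := ∃ a b c d e f : ℝ, ∀ z, q z = quad a b c d e f z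

/-- `C` is contained in a conic: the zero set of a nonzero polynomial of degree at most two. -/
def InConic (C : Set ℂ) : Prop := ∃ q : ℂ → ℝ, IsQuad q ∧ (∃ z, q z ≠ 0) ∧ ∀ z ∈ C, q z = 0

/-- `C` is an ellipse: the zero set of a polynomial of degree two with positive definite
quadratic part which takes negative values. -/
def IsEllipse (C : Set ℂ) : Prop :=
  ∃ a b c d e f : ℝ, 0 < a ∧ b ^ 2 < 4 * a * c ∧ (∃ z, quad a b c d e f z < 0) ∧
    C = {z | quad a b c d e f z = 0}

lemma continuous_quad (a b c d e f : ℝ) : Continuous (quad a b c d e f) := by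
  unfold quad
  fun_prop

/-- the coefficient of `t` in `q (o + t u)` -/
def dq (a b c d e : ℝ) (o u : ℂ) : ℝ :=
  2 * a * o.re * u.re + b * (o.re * u.im + o.im * u.re) + 2 * c * o.im * u.im + d * u.re + e * u.im

/-- the quadratic part -/
def fm (a b c : ℝ) (u : ℂ) : ℝ := a * u.re ^ 2 + b * u.re * u.im + c * u.im ^ 2

lemma quad_line (a b c d e f : ℝ) (o u : ℂ) (t : ℝ) :
    quad a b c d e f (o + t • u) =
      fm a b c u * t ^ 2 + dq a b c d e o u * t + quad a b c d e f o := by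
  simp only [quad, dq, fm, add_re, add_im, real_smul, mul_re, mul_im, ofReal_re, ofReal_im]
  ring

lemma exit_point {K : Set ℂ} (hc : IsCompact K) (hv : Convex ℝ K) {o : ℂ} (ho : o ∈ interior K)
    {u : ℂ} (hu : u ≠ 0) : ∃ t : ℝ, 0 < t ∧ o + t • u ∈ frontier K ∧
      (∀ r : ℝ, 0 ≤ r → (o + r • u ∈ K ↔ r ≤ t)) := by
  have hcl := hc.isClosed
  let g : ℝ → ℂ := fun r => o + r • u
  have hg : Continuous g := by fun_prop
  have hS : IsClosed {r : ℝ | 0 ≤ r ∧ g r ∈ K} :=
    (isClosed_Ici).inter (hcl.preimage hg)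
  have hb : BddAbove {r : ℝ | 0 ≤ r ∧ g r ∈ K} := by
    obtain ⟨M, hM⟩ := hc.isBounded.exists_norm_le
    refine ⟨(M + ‖o‖) / ‖u‖, fun r hr => ?_⟩
    rw [le_div_iff₀ (norm_pos_iff.2 hu)]
    have h1 := hM _ hr.2
    have h2 : ‖r • u‖ ≤ ‖g r‖ + ‖o‖ := by
      have : r • u = g r - o := by simp [g]
      rw [this]
      exact norm_sub_le _ _
    rw [norm_smul, Real.norm_of_nonneg hr.1] at h2
    linarith
  have hne : {r : ℝ | 0 ≤ r ∧ g r ∈ K}.Nonempty :=
    ⟨0, le_rfl, by simpa [g] using interior_subset ho⟩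
  set t := sSup {r : ℝ | 0 ≤ r ∧ g r ∈ K} with ht
  have htm : 0 ≤ t ∧ g t ∈ K := hS.csSup_mem hne hb
  have hup : ∀ r, 0 ≤ r → g r ∈ K → r ≤ t := fun r h0 h1 => le_csSup hb ⟨h0, h1⟩
  have hnear : ∀ r, g r ∈ interior K → ∃ r', r < r' ∧ g r' ∈ K := by
    intro r hr
    have h1 : g ⁻¹' (interior K) ∈ 𝓝 r := (isOpen_interior.preimage hg).mem_nhds hr
    obtain ⟨δ, hδ, h2⟩ := Metric.mem_nhds_iff.1 h1
    refine ⟨r + δ / 2, by linarith, interior_subset (h2 ?_)⟩
    rw [Metric.mem_ball, Real.dist_eq]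
    rw [show r + δ / 2 - r = δ / 2 by ring, abs_of_pos (by linarith)]
    linarith
  have hpos : 0 < t := by
    obtain ⟨r', h1, h2⟩ := hnear 0 (by simpa [g] using ho)
    exact h1.trans_le (hup r' h1.le h2)
  have hnint : g t ∉ interior K := by
    intro h
    obtain ⟨r', h1, h2⟩ := hnear t h
    exact absurd (hup r' (hpos.le.trans h1.le) h2) (not_le.2 h1)
  refine ⟨t, hpos, ?_, fun r hr => ⟨fun h => hup r hr h, fun h => ?_⟩⟩
  · rw [hcl.frontier_eq]
    exact ⟨htm.2, hnint⟩
  · have h1 := hv (interior_subset ho) htm.2 (a := 1 - r / t) (b := r / t)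
      (by rw [sub_nonneg, div_le_one hpos]; exact h) (by positivity) (by ring)
    convert h1 using 1
    simp only [g, smul_add, smul_smul]
    rw [show r / t * t = r by field_simp]
    rw [← add_assoc, ← add_smul]
    simp

/-- A convex body whose frontier lies on a conic is the convex body bounded by an ellipse. -/
theorem ell {K : Set ℂ} (hc : IsCompact K) (hv : Convex ℝ K) (hi : (interior K).Nonempty)
    {q : ℂ → ℝ} (hq : IsQuad q) (hne : ∃ z, q z ≠ 0) (hf : ∀ z ∈ frontier K, q z = 0) :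
    ∃ a b c d e f ε : ℝ, 0 < a ∧ b ^ 2 < 4 * a * c ∧ ε ≠ 0 ∧
      (∀ z, quad a b c d e f z = ε * q z) ∧
      K = {z | quad a b c d e f z ≤ 0} ∧ interior K = {z | quad a b c d e f z < 0} ∧
      frontier K = {z | quad a b c d e f z = 0} := by
  obtain ⟨o, ho⟩ := hi
  obtain ⟨a, b, c, d, e, f, hq⟩ := hq
  have key : ∀ u : ℂ, u ≠ 0 → ∃ t₁ t₂ : ℝ, 0 < t₁ ∧ 0 < t₂ ∧
      (o + (1 : ℝ) • u ∈ K ↔ 1 ≤ t₁) ∧ (o + t₁ • u ∈ frontier K) ∧
      q o = - fm a b c u * t₁ * t₂ ∧
      (∀ t : ℝ, q (o + t • u) = fm a b c u * (t - t₁) * (t + t₂)) := by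
    intro u hu
    obtain ⟨t₁, h1, h2, h3⟩ := exit_point hc hv ho hu
    obtain ⟨t₂, h4, h5, h6⟩ := exit_point hc hv ho (neg_ne_zero.2 hu)
    have e1 := hf _ h2
    have e2 := hf _ h5
    rw [hq, quad_line] at e1 e2
    have e3 : fm a b c (-u) = fm a b c u := by simp [fm]
    have e4 : dq a b c d e o (-u) = - dq a b c d e o u := by simp [dq]; ring
    rw [e3, e4] at e2
    have e5 : quad a b c d e f o = - fm a b c u * t₁ * t₂ := by
      have : (t₁ + t₂) * (quad a b c d e f o + fm a b c u * t₁ * t₂) = 0 := by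
        linear_combination t₂ * e1 + t₁ * e2
      rcases mul_eq_zero.1 this with h | h
      · linarith
      · linarith
    have e6 : dq a b c d e o u = fm a b c u * (t₂ - t₁) := by
      have : t₁ * (dq a b c d e o u - fm a b c u * (t₂ - t₁)) = 0 := by
        linear_combination e1 - e5
      rcases mul_eq_zero.1 this with h | h
      · linarith
      · linarith
    refine ⟨t₁, t₂, h1, h4, h3 1 zero_le_one, h2, by rw [hq, e5], fun t => ?_⟩
    rw [hq, quad_line, e6, e5]
    ring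
  have hqo : q o ≠ 0 := by
    intro h0
    obtain ⟨z, hz⟩ := hne
    by_cases hzo : z = o
    · rw [hzo] at hz
      exact hz h0
    · obtain ⟨t₁, t₂, h1, h2, -, -, h3, h4⟩ := key (z - o) (sub_ne_zero.2 hzo)
      have h5 : fm a b c (z - o) = 0 := by
        rw [h0] at h3
        have : fm a b c (z - o) * (t₁ * t₂) = 0 := by linarith
        rcases mul_eq_zero.1 this with h | h
        · exact h
        · exact absurd h (by positivity)
      have h6 := h4 1
      rw [h5] at h6
      simp at h6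
      exact hz h6
  -- the sign
  obtain ⟨ε, hε, hεo⟩ : ∃ ε : ℝ, ε ≠ 0 ∧ ε * q o < 0 :=
    ⟨-q o, neg_ne_zero.2 hqo, by
      have := mul_self_pos.2 hqo
      linarith⟩
  have hform : ∀ u : ℂ, u ≠ 0 → 0 < ε * fm a b c u := by
    intro u hu
    obtain ⟨t₁, t₂, h1, h2, -, -, h3, -⟩ := key u hu
    rw [h3] at hεo
    have : 0 < (ε * fm a b c u) * (t₁ * t₂) := by linarith
    exact pos_of_mul_pos_left this (by positivity)
  have hQ : ∀ z, quad (ε * a) (ε * b) (ε * c) (ε * d) (ε * e) (ε * f) z = ε * q z := by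
    intro z
    rw [hq]
    simp only [quad]
    ring
  have hA : 0 < ε * a := by
    have := hform 1 one_ne_zero
    simpa [fm] using this
  have hD : (ε * b) ^ 2 < 4 * (ε * a) * (ε * c) := by
    have h1 := hform (⟨-(ε * b), 2 * (ε * a)⟩) (by
      intro h
      have := congrArg Complex.im h
      simp only [Complex.zero_im] at this
      linarith)
    simp only [fm] at h1
    have h2 : 0 < (ε * a) * (4 * (ε * a) * (ε * c) - (ε * b) ^ 2) := by
      calc 0 < _ := h1
        _ = _ := by ring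
    have := pos_of_mul_pos_right h2 hA.le
    linarith
  have hK : K = {z | quad (ε * a) (ε * b) (ε * c) (ε * d) (ε * e) (ε * f) z ≤ 0} := by
    ext z
    rw [mem_setOf_eq, hQ]
    by_cases hzo : z = o
    · rw [hzo]
      exact ⟨fun _ => hεo.le, fun _ => interior_subset ho⟩
    · obtain ⟨t₁, t₂, h1, h2, h3, -, -, h4⟩ := key (z - o) (sub_ne_zero.2 hzo)
      have h5 := h4 1
      rw [one_smul, add_sub_cancel] at h5 h3
      rw [h3, h5]
      have h6 := hform (z - o) (sub_ne_zero.2 hzo)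
      have h7 : ε * (fm a b c (z - o) * (1 - t₁) * (1 + t₂)) =
        (ε * fm a b c (z - o) * (1 + t₂)) * (1 - t₁) := by ring
      rw [h7]
      have h8 : 0 < ε * fm a b c (z - o) * (1 + t₂) := by positivity
      constructor
      · intro h
        exact mul_nonpos_of_nonneg_of_nonpos h8.le (by linarith)
      · intro h
        by_contra h9
        push Not at h9
        have := mul_pos h8 (show 0 < 1 - t₁ by linarith)
        linarith
  have hint : interior K = {z | quad (ε * a) (ε * b) (ε * c) (ε * d) (ε * e) (ε * f) z < 0} := by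
    apply Subset.antisymm
    · intro z hz
      have h1 : z ∈ K := interior_subset hz
      rw [hK, mem_setOf_eq] at h1
      rcases lt_or_eq_of_le h1 with h | h
      · exact h
      · exfalso
        have hzo : z ≠ o := by
          rintro rfl
          rw [hQ] at h
          linarith
        obtain ⟨t₁, t₂, h1, h2, h3, h31, -, h4⟩ := key (z - o) (sub_ne_zero.2 hzo)
        have h5 := h4 1
        rw [one_smul, add_sub_cancel] at h5
        have h6 := hform (z - o) (sub_ne_zero.2 hzo)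
        rw [hQ, h5] at h
        have h7 : (ε * fm a b c (z - o) * (1 + t₂)) * (1 - t₁) = 0 := by linarith
        rcases mul_eq_zero.1 h7 with h8 | h8
        · have : 0 < ε * fm a b c (z - o) * (1 + t₂) := by positivity
          linarith
        · have h9 : t₁ = 1 := by linarith
          rw [h9, one_smul, add_sub_cancel] at h31
          rw [frontier, mem_diff] at h31
          exact h31.2 hz
    · refine interior_maximal ?_ ?_
      · intro z hz
        have hz' : quad (ε * a) (ε * b) (ε * c) (ε * d) (ε * e) (ε * f) z < 0 := hz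
        rw [hK]
        exact hz'.le
      · exact isOpen_lt (continuous_quad _ _ _ _ _ _) continuous_const
  refine ⟨ε * a, ε * b, ε * c, ε * d, ε * e, ε * f, ε, hA, hD, hε, hQ, hK, hint, ?_⟩
  rw [hc.isClosed.frontier_eq, hint]
  ext z
  rw [mem_diff, mem_setOf_eq, mem_setOf_eq]
  have : z ∈ K ↔ quad (ε * a) (ε * b) (ε * c) (ε * d) (ε * e) (ε * f) z ≤ 0 := by
    constructor
    · intro h
      rw [hK] at h
      exact h
    · intro h
      rw [hK]
      exact h
  rw [this, not_lt]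
  exact ⟨fun h => le_antisymm h.1 h.2, fun h => ⟨h.le, h.ge⟩⟩

/-! ### Closure properties -/

lemma IsQuad.sub {p q : ℂ → ℝ} (hp : IsQuad p) (hq : IsQuad q) (s : ℝ) :
    IsQuad (fun z => p z - s * q z) := by
  obtain ⟨a, b, c, d, e, f, hp⟩ := hp
  obtain ⟨a', b', c', d', e', f', hq⟩ := hq
  refine ⟨a - s * a', b - s * b', c - s * c', d - s * d', e - s * e', f - s * f', fun z => ?_⟩
  simp only [hp, hq, quad]
  ring

lemma IsQuad.comp {q : ℂ → ℝ} (hq : IsQuad q) {g : ℂ → ℂ} {p₁ p₂ p₃ q₁ q₂ q₃ : ℝ}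
    (h1 : ∀ z, (g z).re = p₁ * z.re + p₂ * z.im + p₃)
    (h2 : ∀ z, (g z).im = q₁ * z.re + q₂ * z.im + q₃) : IsQuad (fun z => q (g z)) := by
  obtain ⟨a, b, c, d, e, f, hq⟩ := hq
  refine ⟨a * p₁ ^ 2 + b * p₁ * q₁ + c * q₁ ^ 2,
    2 * a * p₁ * p₂ + b * (p₁ * q₂ + p₂ * q₁) + 2 * c * q₁ * q₂,
    a * p₂ ^ 2 + b * p₂ * q₂ + c * q₂ ^ 2,
    2 * a * p₁ * p₃ + b * (p₁ * q₃ + p₃ * q₁) + 2 * c * q₁ * q₃ + d * p₁ + e * q₁,
    2 * a * p₂ * p₃ + b * (p₂ * q₃ + p₃ * q₂) + 2 * c * q₂ * q₃ + d * p₂ + e * q₂,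
    a * p₃ ^ 2 + b * p₃ * q₃ + c * q₃ ^ 2 + d * p₃ + e * q₃ + f, fun z => ?_⟩
  simp only [hq, quad, h1, h2]
  ring

lemma isQuad_normSq : IsQuad (fun z => normSq z - 1) :=
  ⟨1, 0, 1, 0, 0, -1, fun z => by simp only [quad, normSq_apply]; ring⟩

lemma isQuad_re (κ : ℝ) (η ζ : ℂ) : IsQuad (fun z => κ + (η * z + ζ * z ^ 2).re) :=
  ⟨ζ.re, -2 * ζ.im, -ζ.re, η.re, -η.im, κ, fun z => by
    simp only [quad, add_re, mul_re, pow_two, mul_im]; ring⟩

end Pool.Agent.H185.TC
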