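import Pool.Agent.H185.TC.Circle

/-!
# Transfer to the unit circle and conclusion
-/

open Set Topology Complex Filter
open scoped ContDiff

namespace Pool.Agent.H185.TC

variable {Y : ℂ → ℝ}

lemma IsCollar.neg_iff (h : IsCollar Y) (z : ℂ) : Y z < 0 ↔ z ∈ interior {z | Y z ≤ 0} := by
  have hcl := (h.compact 0 le_rfl zero_le_one).isClosed
  constructor
  · intro hz
    by_contra h2
    have h3 : z ∈ frontier {z | Y z ≤ 0} := by
      rw [hcl.frontier_eq]
      exact ⟨hz.le, h2⟩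
    rw [← h.leaf_zero] at h3
    linarith
  · intro hz
    have h1 : z ∈ {z | Y z ≤ 0} := interior_subset hz
    rcases lt_or_eq_of_le (show Y z ≤ 0 from h1) with h2 | h2
    · exact h2
    · exfalso
      rw [h.leaf_zero, hcl.frontier_eq] at h2
      exact h2.2 hz

/-- The collar in the coordinates in which `γ` is the unit circle. -/
lemma IsCollar.transfer (h : IsCollar Y) {a b c d e f : ℝ}
    (hI : interior {z | Y z ≤ 0} = {z | quad a b c d e f z < 0})
    (hF : {z | Y z = 0} = {z | quad a b c d e f z = 0})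
    {L : ℂ ≃L[ℝ] ℂ} {m : ℂ} {ρ : ℝ} (hρ : 0 < ρ)
    (hL : ∀ w, quad a b c d e f (m + L w) = ρ * (normSq w - 1)) :
    Pool.Agent.H719R2.PIB.IsCollar (fun w => Y (m + L w)) := by
  have hg : ∀ w, HasFDerivAt (fun w => m + L w) (L : ℂ →L[ℝ] ℂ) w := fun w =>
    (L.hasFDerivAt).const_add m
  have hgc : Continuous (fun w => m + L w) := by fun_prop
  let H : ℂ ≃ₜ ℂ := L.toHomeomorph.trans (Homeomorph.addLeft m)
  refine ⟨?_, ?_, ?_, ?_, ?_, ?_⟩
  · obtain ⟨U, hU, hsub, hd⟩ := h.smooth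
    refine ⟨(fun w => m + L w) ⁻¹' U, hU.preimage hgc, fun w hw => hsub hw, ?_⟩
    refine hd.comp (s := (fun w => m + L w) ⁻¹' U) ?_ (fun w hw => hw)
    exact (contDiff_const.add L.contDiff).contDiffOn
  · intro w h0 h1 hcon
    have h2 := (h.diffAt h0 h1).comp w (hg w)
    have h3 : HasFDerivAt (fun w => Y (m + L w)) ((fderiv ℝ Y (m + L w)).comp (L : ℂ →L[ℝ] ℂ)) w := h2
    rw [h3.fderiv] at hcon
    apply h.regular _ h0 h1
    ext v
    have h4 := ContinuousLinearMap.ext_iff.1 hcon (L.symm v)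
    simpa using h4
  · intro c h0 h1
    exact H.isCompact_preimage.2 (h.compact c h0 h1)
  · intro c h0 h1 x hx y hy s t hs ht hst
    have h2 := h.convex c h0 h1 (show Y (m + L x) ≤ c from hx) (show Y (m + L y) ≤ c from hy)
      hs ht hst
    have h3 : s • (m + L x) + t • (m + L y) = m + L (s • x + t • y) := by
      rw [map_add, map_smul, map_smul]
      calc s • (m + L x) + t • (m + L y) = (s + t) • m + (s • L x + t • L y) := by
            simp only [smul_add, add_smul]; abel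
        _ = _ := by rw [hst, one_smul]
    rw [h3] at h2
    exact h2
  · intro z
    have h2 : Y (m + L z) = 0 ↔ quad a b c d e f (m + L z) = 0 := by
      have := Set.ext_iff.1 hF (m + L z)
      exact this
    show Y (m + L z) = 0 ↔ ‖z‖ = 1
    rw [h2, hL, normSq_eq_norm_sq]
    constructor
    · intro h3
      rcases mul_eq_zero.1 h3 with h4 | h4
      · exact absurd h4 hρ.ne'
      · have : (‖z‖ - 1) * (‖z‖ + 1) = 0 := by linarith
        rcases mul_eq_zero.1 this with h5 | h5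
        · linarith
        · have := norm_nonneg z
          linarith
    · intro h3
      rw [h3]
      ring
  · intro z
    show Y (m + L z) < 0 ↔ ‖z‖ < 1
    rw [h.neg_iff, hI]
    show quad a b c d e f (m + L z) < 0 ↔ ‖z‖ < 1
    rw [hL, normSq_eq_norm_sq]
    constructor
    · intro h3
      by_contra h4
      push Not at h4
      have : 0 ≤ ρ * (‖z‖ ^ 2 - 1) := mul_nonneg hρ.le (by nlinarith)
      linarith
    · intro h3
      have h5 := norm_nonneg z
      exact mul_neg_of_pos_of_neg hρ (by nlinarith)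

/-- the tangent direction -/
lemma IsCollar.tangent (h : IsCollar Y) {L : ℂ ≃L[ℝ] ℂ} {m : ℂ}
    (h0 : ∀ z : ℂ, ‖z‖ = 1 → Y (m + L z) = 0) {p : ℂ} (hp : ‖p‖ = 1) :
    L (I * p) ≠ 0 ∧ fderiv ℝ Y (m + L p) (L (I * p)) = 0 := by
  have hp0 : p ≠ 0 := by
    intro h
    rw [h, norm_zero] at hp
    exact zero_ne_one hp
  refine ⟨fun hcon => ?_, ?_⟩
  · rw [map_eq_zero_iff L L.injective] at hcon
    exact (mul_ne_zero I_ne_zero hp0) hcon
  · have hE : HasDerivAt (fun θ : ℝ => exp (θ * I) * p) (I * p) 0 := by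
      have h1 : HasDerivAt (fun θ : ℝ => ((θ : ℂ) * I)) (1 * I) 0 :=
        (HasDerivAt.ofReal_comp (hasDerivAt_id (0 : ℝ))).mul_const I
      have := (h1.cexp).mul_const p
      simpa using this
    have h2 : Y (m + L p) = 0 := h0 p hp
    have h3 := h.diffAt h2.ge (by rw [h2]; exact zero_le_one)
    have h4 : HasDerivAt (fun θ : ℝ => m + L (exp (θ * I) * p)) (L (I * p)) 0 := by
      have := (L.hasFDerivAt (x := exp ((0 : ℝ) * I) * p)).comp_hasDerivAt (0 : ℝ) hE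
      exact this.const_add m
    have h5 : HasFDerivAt Y (fderiv ℝ Y (m + L p)) (m + L (exp ((0 : ℝ) * I) * p)) := by
      simpa using h3
    have h6 := h5.comp_hasDerivAt (0 : ℝ) h4
    have h7 : (Y ∘ fun θ : ℝ => m + L (exp (θ * I) * p)) = fun _ => (0 : ℝ) := by
      ext θ
      apply h0
      rw [norm_mul, hp, norm_exp_ofReal_mul_I, one_mul]
    rw [h7] at h6
    exact h6.unique (hasDerivAt_const (0 : ℝ) (0 : ℝ))

/-- a quadratic polynomial in affine coordinates -/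
lemma IsQuad.comp_affine {q : ℂ → ℝ} (hq : IsQuad q) (L : ℂ →L[ℝ] ℂ) (m : ℂ) :
    IsQuad (fun z => q (m + L z)) := by
  have h1 : ∀ z : ℂ, L z = z.re • L 1 + z.im • L I := by
    intro z
    rw [← map_smul, ← map_smul, ← map_add]
    congr 1
    apply Complex.ext <;> simp
  refine hq.comp (p₁ := (L 1).re) (p₂ := (L I).re) (p₃ := m.re) (q₁ := (L 1).im)
    (q₂ := (L I).im) (q₃ := m.im) (fun z => ?_) (fun z => ?_)
  · rw [h1 z]
    simp
    ring
  · rw [h1 z]
    simp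
    ring

/-- If `γ` and one other leaf lie on conics, all leaves are ellipses of one pencil. -/
theorem IsCollar.pencil (h : IsCollar Y) {r : ℝ} (hr0 : 0 < r) (hr : r ≤ 1)
    (hp : ∀ p v, Y p = 0 → v ≠ 0 → fderiv ℝ Y p v = 0 → Projective Y p v)
    (hC0 : InConic {z | Y z = 0}) (hC : InConic {z | Y z = r}) :
    ∃ (L : ℂ ≃L[ℝ] ℂ) (m : ℂ) (κ : ℝ) (η ζ : ℂ),
      (∀ z : ℂ, ‖z‖ = 1 → Y (m + L z) = 0) ∧
      ∀ c, 0 ≤ c → c ≤ 1 → ∃ s : ℝ, {z : ℂ | Y (m + L z) = c} =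
        {z : ℂ | normSq z - 1 = s * (κ + (η * z + ζ * z ^ 2).re)} := by
  obtain ⟨a, b, c, d, e, f, ha, hb, hK, hI, hF⟩ := h.conic_leaf le_rfl zero_le_one hC0
  obtain ⟨z₀, hz₀⟩ := h.nonempty
  rw [hI] at hz₀
  obtain ⟨L, m, ρ, hρ, hL⟩ := normal ha hb ⟨z₀, hz₀⟩
  have hcol := h.transfer hI hF hρ hL
  have h0 : ∀ z : ℂ, ‖z‖ = 1 → Y (m + L z) = 0 := fun z hz => (hcol.leaf_zero z).2 hz
  obtain ⟨a₂, b₂, c₂, d₂, e₂, f₂, ha₂, hb₂, hK₂, hI₂, hF₂⟩ := h.conic_leaf hr0.le hr hC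
  -- the polynomial in the new coordinates
  obtain ⟨a', b', c', d', e', f', hq'⟩ :=
    IsQuad.comp_affine (q := quad a₂ b₂ c₂ d₂ e₂ f₂) ⟨a₂, b₂, c₂, d₂, e₂, f₂, fun _ => rfl⟩
      (L : ℂ →L[ℝ] ℂ) m
  have hq'' : ∀ z, quad a' b' c' d' e' f' z = quad a₂ b₂ c₂ d₂ e₂ f₂ (m + L z) :=
    fun z => (hq' z).symm
  have hdq : ∀ p v, dq a' b' c' d' e' p v = dq a₂ b₂ c₂ d₂ e₂ (m + L p) (L v) := by
    intro p v
    have e1 := quad_line a' b' c' d' e' f' p v 1
    have e2 := quad_line a' b' c' d' e' f' p v (-1)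
    have e3 := quad_line a₂ b₂ c₂ d₂ e₂ f₂ (m + L p) (L v) 1
    have e4 := quad_line a₂ b₂ c₂ d₂ e₂ f₂ (m + L p) (L v) (-1)
    rw [hq''] at e1 e2
    have e5 : m + L (p + (1 : ℝ) • v) = m + L p + (1 : ℝ) • L v := by
      rw [map_add, map_smul]; abel
    have e6 : m + L (p + (-1 : ℝ) • v) = m + L p + (-1 : ℝ) • L v := by
      rw [map_add, map_smul]; abel
    rw [e5] at e1
    rw [e6] at e2
    linarith
  have hrat : Pool.Agent.H719R2.PIB.RationalInvolutions (fun w => Y (m + L w)) := by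
    refine rational (a := a') (b := b') (c := c') (d := d') (e := e') (f := f') ?_ ?_
    · intro p hp1
      rw [hq'']
      have h1 := h.sub_int hr0 hr (h0 p hp1).le
      rw [hI₂] at h1
      exact h1
    · intro p hp1
      obtain ⟨ht1, ht2⟩ := h.tangent h0 hp1
      obtain ⟨κ, hκ⟩ := (hp (m + L p) (L (I * p)) (h0 p hp1) ht1 ht2).const
      refine ⟨κ, ?_, fun s t hs ht h1 h2 => ?_⟩
      · rw [hdq, hq'']
        exact h.conic_rel hr0 hr hF₂ (h0 p hp1).le ht1 hκ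
      · have e5 : ∀ x : ℝ, m + L (p + x • (I * p)) = m + L p + x • L (I * p) := by
          intro x
          rw [map_add, map_smul]; abel
        have h1' : Y (m + L (p + t • (I * p))) ≤ 1 := h1
        have h2' : Y (m + L (p + s • (I * p))) = Y (m + L (p + t • (I * p))) := h2
        rw [e5] at h1'
        rw [e5, e5] at h2'
        exact hκ s t hs ht h1' h2'
  obtain ⟨κ, η, ζ, h1, h2⟩ := Pool.Agent.H719R2.PIB.rational_rigidity hcol hrat
  refine ⟨L, m, κ, η, ζ, h0, fun c hc0 hc1 => ?_⟩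
  obtain ⟨s, -, -, h3⟩ := h2 c hc0 hc1
  exact ⟨s, h3⟩

/-- leaves lying on conics are ellipses -/
lemma IsCollar.ellipse (h : IsCollar Y) {r : ℝ} (hr0 : 0 ≤ r) (hr : r ≤ 1)
    (hC : InConic {z | Y z = r}) : IsEllipse {z | Y z = r} := by
  obtain ⟨a, b, c, d, e, f, ha, hb, hK, hI, hF⟩ := h.conic_leaf hr0 hr hC
  obtain ⟨z, hz⟩ := h.int_nonempty hr0 hr
  rw [hI] at hz
  exact ⟨a, b, c, d, e, f, ha, hb, ⟨z, hz⟩, hF⟩

/-- pulling back -/
lemma IsCollar.pull (h : IsCollar Y) {c : ℝ} (hc0 : 0 ≤ c) (hc1 : c ≤ 1) {L : ℂ ≃L[ℝ] ℂ} {m : ℂ}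
    {g : ℂ → ℝ} (hg : IsQuad g) (hset : {z : ℂ | Y (m + L z) = c} = {z : ℂ | g z = 0}) :
    IsEllipse {z | Y z = c} ∧
      {z | Y z = c} = {z | g (L.symm (z - m)) = 0} := by
  have h1 : {z | Y z = c} = {z | g (L.symm (z - m)) = 0} := by
    ext z
    have := Set.ext_iff.1 hset (L.symm (z - m))
    simp only [mem_setOf_eq, ContinuousLinearEquiv.apply_symm_apply, add_sub_cancel] at this
    exact this
  refine ⟨h.ellipse hc0 hc1 ⟨fun z => g (L.symm (z - m)), ?_, ?_, ?_⟩, h1⟩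
  · have h2 := hg.comp_affine (L.symm : ℂ →L[ℝ] ℂ) (-(L.symm m))
    have h3 : (fun z => g (-(L.symm m) + (L.symm : ℂ →L[ℝ] ℂ) z)) =
        fun z => g (L.symm (z - m)) := by
      ext z
      congr 1
      rw [map_sub]
      show -(L.symm m) + L.symm z = _
      abel
    rw [h3] at h2
    exact h2
  · by_contra hcon
    push Not at hcon
    obtain ⟨z, hz⟩ := h.int_nonempty hc0 hc1
    have h2 : z ∈ {z | Y z = c} := by
      rw [h1]
      exact hcon z
    rw [h.leaf_eq hc0 hc1, frontier, mem_diff] at h2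
    exact h2.2 hz
  · intro z hz
    rw [h1] at hz
    exact hz

/-- Two leaves on conics: all leaves are ellipses of one pencil. -/
theorem two_conics (h : IsCollar Y)
    (hp : ∀ p v, Y p = 0 → v ≠ 0 → fderiv ℝ Y p v = 0 → Projective Y p v)
    {r₁ r₂ : ℝ} (h0 : 0 ≤ r₁) (h12 : r₁ < r₂) (h2 : r₂ ≤ 1)
    (hC1 : InConic {z | Y z = r₁}) (hC2 : InConic {z | Y z = r₂}) :
    ∃ q₀ q₁ : ℂ → ℝ, IsQuad q₀ ∧ IsQuad q₁ ∧ ∀ c, 0 ≤ c → c ≤ 1 →
      IsEllipse {z | Y z = c} ∧ ∃ s : ℝ, {z | Y z = c} = {z | q₀ z = s * q₁ z} := by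
  have hC0 := h.gamma_conic hp h0 h12 h2 hC1 hC2
  obtain ⟨L, m, κ, η, ζ, hcirc, hleaf⟩ := h.pencil (h0.trans_lt h12) h2 hp hC0 hC2
  have haff : ∀ {g : ℂ → ℝ}, IsQuad g → IsQuad (fun z => g (L.symm (z - m))) := by
    intro g hg
    have h2 := hg.comp_affine (L.symm : ℂ →L[ℝ] ℂ) (-(L.symm m))
    have h3 : (fun z => g (-(L.symm m) + (L.symm : ℂ →L[ℝ] ℂ) z)) =
        fun z => g (L.symm (z - m)) := by
      ext z
      congr 1
      rw [map_sub]
      show -(L.symm m) + L.symm z = _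
      abel
    rw [h3] at h2
    exact h2
  refine ⟨_, _, haff isQuad_normSq, haff (isQuad_re κ η ζ), fun c hc0 hc1 => ?_⟩
  obtain ⟨s, hs⟩ := hleaf c hc0 hc1
  obtain ⟨h3, h4⟩ := h.pull hc0 hc1 (L := L) (m := m) (isQuad_normSq.sub (isQuad_re κ η ζ) s) (by
    rw [hs]
    ext z
    simp only [mem_setOf_eq]
    exact sub_eq_zero.symm)
  refine ⟨h3, s, ?_⟩
  rw [h4]
  ext z
  simp only [mem_setOf_eq]
  exact sub_eq_zero

end Pool.Agent.H185.TC
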